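import Pool.Agent.H8.BIG.Targets

/-!
# Row FIB of `big_modules`: the fibres of the iterates over the general point
-/

set_option autoImplicit false

open MvPolynomial
open Pool.Agent.H12.ZD (pmap v O Res DenseOrbit NoInv)
open Pool.Agent.H18.HIT Pool.Agent.H8.BIG

namespace Pool.Agent.H61.BIG

/-- the fibres of the iterates over the general point of a totally invariant variety -/
theorem pf_FIB : T_FIB := by
  classical
  intro N k _ G I E cG q₀ hI hdv hcG hfib hq₀ n
  induction n with
  | zero =>
    refine ⟨q₀, hq₀, fun y hy => ⟨{y}, ?_, ?_⟩⟩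
    · rw [Finset.card_singleton, pow_zero]
    · intro x hx
      rw [Finset.mem_singleton] at hx
      subst hx
      refine ⟨rfl, fun j hj => ?_⟩
      have hj0 : j = 0 := by omega
      subst hj0
      exact hy
  | succ n ih =>
    obtain ⟨c, hc, H⟩ := ih
    obtain ⟨c', hc', hd⟩ := hdv c hc
    refine ⟨cG * c' * q₀, ?_, ?_⟩
    · intro h
      rcases hI.mem_or_mem h with h | h
      · rcases hI.mem_or_mem h with h | h
        · exact hcG h
        · exact hc' h
      · exact hq₀ h
    · intro y hy
      rw [map_mul, map_mul] at hy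
      have hy1 : eval y cG ≠ 0 := left_ne_zero_of_mul (left_ne_zero_of_mul hy)
      have hy2 : eval y c' ≠ 0 := right_ne_zero_of_mul (left_ne_zero_of_mul hy)
      have hy3 : eval y q₀ ≠ 0 := right_ne_zero_of_mul hy
      obtain ⟨S₁, hS₁, hS₁'⟩ := hfib y hy1
      have hcx : ∀ x' ∈ S₁, eval x' c ≠ 0 := by
        intro x' hx' h0
        obtain ⟨e, he⟩ := hd
        apply hy2
        rw [← hS₁' x' hx', ← Pool.Agent.H18.HIT.eval_aeval, he, map_mul, h0, zero_mul]
      have hex : ∀ x' : Fin N → k, ∃ S : Finset (Fin N → k), x' ∈ S₁ →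
          S.card = E ^ n ∧ ∀ x ∈ S, (pmap G)^[n] x = x' ∧
            ∀ j, j ≤ n → eval ((pmap G)^[j] x) q₀ ≠ 0 := by
        intro x'
        by_cases hx' : x' ∈ S₁
        · obtain ⟨S, h1, h2⟩ := H x' (hcx x' hx')
          exact ⟨S, fun _ => ⟨h1, h2⟩⟩
        · exact ⟨∅, fun h => absurd h hx'⟩
      choose Sf hSf using hex
      refine ⟨S₁.biUnion Sf, ?_, ?_⟩
      · rw [Finset.card_biUnion, Finset.sum_congr rfl fun x' hx' => (hSf x' hx').1,
          Finset.sum_const, hS₁, smul_eq_mul, pow_succ, mul_comm]
        intro a ha b hb hab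
        rw [Function.onFun, Finset.disjoint_left]
        intro x hx1 hx2
        exact hab (by rw [← ((hSf a ha).2 x hx1).1, ← ((hSf b hb).2 x hx2).1])
      · intro x hx
        rw [Finset.mem_biUnion] at hx
        obtain ⟨x', hx', hxS⟩ := hx
        obtain ⟨h1, h2⟩ := (hSf x' hx').2 x hxS
        have h3 : (pmap G)^[n + 1] x = y := by
          rw [Function.iterate_succ_apply', h1, hS₁' x' hx']
        refine ⟨h3, fun j hj => ?_⟩
        rcases Nat.lt_or_ge n j with h4 | h4
        · have hj1 : j = n + 1 := by omega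
          subst hj1
          rw [h3]
          exact hy3
        · exact h2 j h4

end Pool.Agent.H61.BIG
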